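import Pool.Agent.Helper20.EP.Spec3

set_option autoImplicit false

open Polynomial Filter

namespace Pool.Agent.Helper2.EP.BIGP

open Pool.Agent.Helper20.EP

/-- the primes above `y` dividing `m` -/
theorem big_primes (m : ℤ) (hm : m ≠ 0) (y : ℝ) (hy : 2 ≤ y) :
    |(omg m : ℝ) - (((Pq 1 y).filter fun p : ℕ => (p : ℤ) ∣ m).card : ℝ)| ≤
      Real.log |(m : ℝ)| / Real.log y := by
  classical
  have hlogy : 0 < Real.log y := Real.log_pos (by linarith)
  have hna : m.natAbs ≠ 0 := by simpa using hm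
  set S := m.natAbs.primeFactors with hS
  have hZ : (Pq 1 y).filter (fun p : ℕ => (p : ℤ) ∣ m) = S.filter fun p : ℕ => (p : ℝ) ≤ y := by
    ext p
    simp only [Pq, primesLE, Finset.mem_filter, Finset.mem_range, hS, Nat.mem_primeFactors]
    constructor
    · rintro ⟨⟨⟨h1, h2⟩, _⟩, h4⟩
      refine ⟨⟨h2, Int.natCast_dvd.1 h4, hna⟩, ?_⟩
      exact (Nat.le_floor_iff (by linarith)).1 (by omega)
    · rintro ⟨⟨h1, h2, _⟩, h4⟩
      refine ⟨⟨⟨?_, h1⟩, ?_⟩, Int.natCast_dvd.2 h2⟩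
      · have := (Nat.le_floor_iff (show (0 : ℝ) ≤ y by linarith)).2 h4
        omega
      · intro h5
        exact h1.one_lt.ne' (Nat.dvd_one.1 h5)
  have hsplit := Finset.card_filter_add_card_filter_not (s := S) (fun p : ℕ => (p : ℝ) ≤ y)
  rw [hZ, omg]
  have h1 : ((S.card : ℕ) : ℝ) - ((S.filter fun p : ℕ => (p : ℝ) ≤ y).card : ℝ) =
      ((S.filter fun p : ℕ => ¬ (p : ℝ) ≤ y).card : ℝ) := by
    rw [← hsplit]
    push_cast
    ring
  rw [h1, abs_of_nonneg (Nat.cast_nonneg _), le_div_iff₀ hlogy]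
  set B := S.filter fun p : ℕ => ¬ (p : ℝ) ≤ y with hB
  have hBp : ∀ p ∈ B, p.Prime := fun p hp => Nat.prime_of_mem_primeFactors (Finset.mem_filter.1 hp).1
  calc (B.card : ℝ) * Real.log y = ∑ _p ∈ B, Real.log y := by simp
    _ ≤ ∑ p ∈ B, Real.log (p : ℝ) := by
        refine Finset.sum_le_sum fun p hp => ?_
        have := (Finset.mem_filter.1 hp).2
        exact Real.log_le_log (by linarith) (by linarith)
    _ = Real.log (∏ p ∈ B, (p : ℝ)) := by
        rw [Real.log_prod fun p hp => by exact_mod_cast (hBp p hp).ne_zero]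
    _ ≤ Real.log |(m : ℝ)| := by
        have hpos : 0 < ∏ p ∈ B, (p : ℝ) :=
          Finset.prod_pos fun p hp => by exact_mod_cast (hBp p hp).pos
        refine Real.log_le_log hpos ?_
        have h2 : ∏ p ∈ B, p ∣ m.natAbs :=
          (Finset.prod_dvd_prod_of_subset B S (fun p => p) (Finset.filter_subset _ _)).trans
            (Nat.prod_primeFactors_dvd _)
        have h3 := Nat.le_of_dvd (Nat.pos_of_ne_zero hna) h2
        have h4 : ((∏ p ∈ B, p : ℕ) : ℝ) ≤ (m.natAbs : ℝ) := by exact_mod_cast h3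
        rw [Nat.cast_prod] at h4
        rw [Nat.cast_natAbs, Int.cast_abs] at h4
        exact h4

theorem main : S_BIGP := by
  intro f hD
  set D := f.natDegree with hDdef
  set B : ℝ := (∑ i ∈ Finset.range (D + 1), |f.coeff i|) + 1 with hB
  have hB1 : 1 ≤ B := by
    have : 0 ≤ ∑ i ∈ Finset.range (D + 1), |f.coeff i| := Finset.sum_nonneg fun _ _ => abs_nonneg _
    linarith
  refine ⟨D + 1, ⌈B⌉₊ + 2, by positivity, ?_⟩
  intro N hN n hn hm y hy
  have hlogy : 0 < Real.log y := Real.log_pos (by linarith)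
  have hNB : B ≤ N := by
    have h1 : B ≤ (⌈B⌉₊ : ℝ) := Nat.le_ceil _
    have h2 : ((⌈B⌉₊ : ℕ) : ℝ) ≤ N := by
      have : ⌈B⌉₊ ≤ N := by omega
      exact_mod_cast this
    linarith
  have hN1 : (1 : ℝ) ≤ N := hB1.trans hNB
  have hnN : (n : ℝ) ≤ N := by exact_mod_cast (Finset.mem_Icc.1 hn).2
  have h1 := big_primes ⌊f.eval (n : ℝ)⌋ hm y hy
  have h2 : (Zn f 1 y n : ℝ) = (((Pq 1 y).filter fun p : ℕ => (p : ℤ) ∣ ⌊f.eval (n : ℝ)⌋).card : ℝ) := rfl
  rw [h2]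
  refine h1.trans ?_
  rw [← mul_div_assoc]
  refine div_le_div_of_nonneg_right ?_ hlogy.le
  have hf : |f.eval (n : ℝ)| ≤ (B - 1) * N ^ D := by
    rw [eval_eq_sum_range, ← hDdef]
    refine (Finset.abs_sum_le_sum_abs _ _).trans ?_
    rw [hB, add_sub_cancel_right, Finset.sum_mul]
    refine Finset.sum_le_sum fun i hi => ?_
    rw [abs_mul, abs_of_nonneg (show (0 : ℝ) ≤ (n : ℝ) ^ i by positivity)]
    refine mul_le_mul_of_nonneg_left ?_ (abs_nonneg _)
    calc (n : ℝ) ^ i ≤ (N : ℝ) ^ i := pow_le_pow_left₀ (Nat.cast_nonneg _) hnN _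
      _ ≤ (N : ℝ) ^ D := pow_le_pow_right₀ hN1 (by
          have := Finset.mem_range.1 hi
          omega)
  have hfl : |((⌊f.eval (n : ℝ)⌋ : ℤ) : ℝ)| ≤ |f.eval (n : ℝ)| + 1 := by
    have h3 : ((⌊f.eval (n : ℝ)⌋ : ℤ) : ℝ) = f.eval (n : ℝ) - Int.fract (f.eval (n : ℝ)) := by
      rw [Int.self_sub_fract]
    rw [h3]
    refine (abs_sub _ _).trans ?_
    rw [abs_of_nonneg (Int.fract_nonneg (f.eval (n : ℝ)))]
    linarith [Int.fract_lt_one (f.eval (n : ℝ))]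
  have hND : (1 : ℝ) ≤ (N : ℝ) ^ D := one_le_pow₀ hN1
  have h5 : |((⌊f.eval (n : ℝ)⌋ : ℤ) : ℝ)| ≤ (N : ℝ) ^ (D + 1) := by
    calc |((⌊f.eval (n : ℝ)⌋ : ℤ) : ℝ)| ≤ (B - 1) * N ^ D + 1 := by linarith
      _ ≤ B * N ^ D := by nlinarith
      _ ≤ N * N ^ D := mul_le_mul_of_nonneg_right hNB (by positivity)
      _ = (N : ℝ) ^ (D + 1) := by rw [pow_succ']
  have h6 : 0 < |((⌊f.eval (n : ℝ)⌋ : ℤ) : ℝ)| := abs_pos.2 (by exact_mod_cast hm)
  have h7 := Real.log_le_log h6 h5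
  rw [Real.log_pow] at h7
  push_cast at h7
  exact h7

end Pool.Agent.Helper2.EP.BIGP
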