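import Pool.Agent.Helper20.EP.Spec3
import Pool.Agent.Helper20.EP.Spec1

set_option autoImplicit false

open Polynomial Filter Topology MeasureTheory ProbabilityTheory

namespace Pool.Agent.Helper2.EP.FIN

open Pool.Agent.Helper20.EP

/-- `(log log N)^(1/4)` -/
noncomputable def w (N : ℕ) : ℝ := Real.sqrt (Real.sqrt (ll N))

/-- the cut-off -/
noncomputable def y0 (N : ℕ) : ℝ := Real.exp (Real.log N / w N)

theorem tendsto_ll : Tendsto (fun N : ℕ => ll (N : ℝ)) atTop atTop :=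
  Real.tendsto_log_atTop.comp (Real.tendsto_log_atTop.comp tendsto_natCast_atTop_atTop)

theorem tendsto_w : Tendsto w atTop atTop :=
  Real.tendsto_sqrt_atTop.comp (Real.tendsto_sqrt_atTop.comp tendsto_ll)

theorem facts {N : ℕ} (hw : 1 ≤ w N) :
    w N * w N = Real.sqrt (ll N) ∧ w N ^ 4 = ll N ∧ 1 ≤ ll N ∧ w N ≤ Real.log N ∧
      Real.exp (ll N) = Real.log N ∧ (1 : ℝ) < N := by
  have h1 : w N * w N = Real.sqrt (ll N) := Real.mul_self_sqrt (Real.sqrt_nonneg _)
  have hs : 1 ≤ Real.sqrt (ll N) := by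
    rw [← h1]
    nlinarith
  have hL0 : 0 ≤ ll N := by
    by_contra h
    rw [Real.sqrt_eq_zero_of_nonpos (by linarith)] at hs
    linarith
  have h2 : w N ^ 4 = ll N := by
    have : w N ^ 4 = (w N * w N) * (w N * w N) := by ring
    rw [this, h1, Real.mul_self_sqrt hL0]
  have h3 : 1 ≤ ll N := by
    rw [← h2]
    exact one_le_pow₀ hw
  have hlog0 : 0 < Real.log N := by
    by_contra h
    have h4 : Real.log N ≤ 0 := not_lt.1 h
    have h5 : (0 : ℝ) ≤ Real.log N := Real.log_natCast_nonneg N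
    have h6 : Real.log N = 0 := le_antisymm h4 h5
    rw [ll, h6, Real.log_zero] at h3
    linarith
  have h4 : ll N ≤ Real.log N := by
    have := Real.log_le_sub_one_of_pos hlog0
    rw [ll]
    linarith
  have h5 : w N ≤ w N ^ 4 := by
    calc w N = w N ^ 1 := (pow_one _).symm
      _ ≤ w N ^ 4 := pow_le_pow_right₀ hw (by norm_num)
  refine ⟨h1, h2, h3, by linarith, Real.exp_log hlog0, ?_⟩
  by_contra h
  have h6 : Real.log (N : ℝ) ≤ 0 := Real.log_nonpos (Nat.cast_nonneg _) (not_lt.1 h)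
  linarith

theorem good {κ : ℝ} (hκ : 0 < κ) {N : ℕ} (hw : 1 ≤ w N) (hκw : 1 / κ ≤ w N) {y : ℝ}
    (hy : y0 N ≤ y) (hyN : y ≤ N) : Good κ N y := by
  obtain ⟨h1, h2, h3, h4, h5, h6⟩ := facts hw
  have hw0 : 0 < w N := by linarith
  have hlogN : 0 < Real.log N := by linarith
  have hy0 : 2 ≤ y0 N := by
    have h7 : 1 ≤ Real.log N / w N := by
      rw [le_div_iff₀ hw0]
      linarith
    have h8 : 1 + 1 ≤ Real.exp 1 := by
      have := Real.add_one_le_exp (1 : ℝ)
      linarith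
    have h9 : Real.exp 1 ≤ y0 N := Real.exp_le_exp.2 h7
    linarith
  have hy2 : 2 ≤ y := hy0.trans hy
  have hlogy : Real.log N / w N ≤ Real.log y := by
    have : Real.log (y0 N) = Real.log N / w N := Real.log_exp _
    rw [← this]
    exact Real.log_le_log (by linarith) hy
  have hq0 : 0 < Real.log N / w N := by positivity
  have hlogy0 : 0 < Real.log y := hq0.trans_le hlogy
  have hκ2 : w N ≤ κ * Real.sqrt (ll N) := by
    rw [← h1]
    have h7 : 1 ≤ κ * w N := by
      rw [div_le_iff₀ hκ] at hκw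
      linarith
    nlinarith
  refine ⟨hy2, hyN, ?_, ?_⟩
  · refine le_trans ?_ hκ2
    rw [div_le_iff₀ hlogy0]
    rw [div_le_iff₀ hw0] at hlogy
    linarith
  · refine le_trans ?_ hκ2
    have h7 : Real.log (Real.log N / w N) ≤ ll y := Real.log_le_log hq0 hlogy
    rw [Real.log_div hlogN.ne' hw0.ne'] at h7
    have h8 : Real.log (w N) ≤ w N := by
      have := Real.log_le_sub_one_of_pos hw0
      linarith
    have h9 : ll N = Real.log (Real.log N) := rfl
    linarith

theorem y0_pow {N K : ℕ} (hw : 1 ≤ w N) (hK : (K : ℝ) ≤ w N) : y0 N ^ K ≤ N := by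
  obtain ⟨h1, h2, h3, h4, h5, h6⟩ := facts hw
  have hw0 : 0 < w N := by linarith
  have hlogN : 0 < Real.log N := by linarith
  rw [y0, ← Real.exp_nat_mul]
  have h7 : (K : ℝ) * (Real.log N / w N) ≤ Real.log N := by
    rw [mul_div_assoc', div_le_iff₀ hw0]
    nlinarith
  calc Real.exp ((K : ℝ) * (Real.log N / w N)) ≤ Real.exp (Real.log N) := Real.exp_le_exp.2 h7
    _ = N := Real.exp_log (by linarith)

theorem main (hEX : S_EXDAT) (hLIM : S_LIMM) (hMAJ : S_MAJ) (hMIN : S_MIN) (hCDF : S_CDF) :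
    S_FIN := by
  intro f hirr
  have hD : 1 ≤ f.natDegree := by
    obtain ⟨j, hj, hj2⟩ := hirr
    have h1 : f.coeff j ≠ 0 := hj2.ne_zero
    exact hj.trans (le_natDegree_of_ne_zero h1)
  refine hCDF (fun N n => xn f N n) fun t => ?_
  rw [Metric.tendsto_atTop]
  intro ε hε
  obtain ⟨K1, κ1, M1, N1, hκ1, h1⟩ := hMAJ f hD t (ε / 2) (by positivity)
  obtain ⟨K2, κ2, M2, N2, hκ2, h2⟩ := hMIN f hD t (ε / 2) (by positivity)
  obtain ⟨N3, h3⟩ := hLIM f hirr (max M1 M2)
  obtain ⟨N4, h4⟩ := ((tendsto_w.eventually_ge_atTop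
    (max (max 1 ((K1 + 1) * (K2 + 1) : ℕ)) (max (1 / κ1) (1 / κ2)))).and
      (eventually_ge_atTop (max (max N1 N2) (max N3 1)))).exists_forall_of_atTop
  refine ⟨N4, fun N hN => ?_⟩
  obtain ⟨hwN, hNN⟩ := h4 N hN
  have hw1 : 1 ≤ w N := le_trans (le_trans (le_max_left _ _) (le_max_left _ _)) hwN
  have hwK : (((K1 + 1) * (K2 + 1) : ℕ) : ℝ) ≤ w N :=
    le_trans (le_trans (le_max_right _ _) (le_max_left _ _)) hwN
  have hwκ1 : 1 / κ1 ≤ w N := le_trans (le_trans (le_max_left _ _) (le_max_right _ _)) hwN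
  have hwκ2 : 1 / κ2 ≤ w N := le_trans (le_trans (le_max_right _ _) (le_max_right _ _)) hwN
  have hN1 : N1 ≤ N := le_trans (le_trans (le_max_left _ _) (le_max_left _ _)) hNN
  have hN2 : N2 ≤ N := le_trans (le_trans (le_max_right _ _) (le_max_left _ _)) hNN
  have hN3 : N3 ≤ N := le_trans (le_trans (le_max_left _ _) (le_max_right _ _)) hNN
  have hN4 : 1 ≤ N := le_trans (le_trans (le_max_right _ _) (le_max_right _ _)) hNN
  obtain ⟨q, F, T, M, hdat⟩ := hEX f hD N hN4
  have hM := h3 N hN3 q F T M hdat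
  have hM1 : M1 ≤ M := (le_max_left _ _).trans hM
  have hM2 : M2 ≤ M := (le_max_right _ _).trans hM
  have hMone : 1 ≤ M := by
    have hq1 : (1 : ℝ) ≤ q := by exact_mod_cast hdat.q_pos
    have hT := hdat.T_nn
    rw [hdat.hM]
    nlinarith
  have hy01 : 1 ≤ y0 N := by
    obtain ⟨-, -, -, g4, -, -⟩ := facts hw1
    rw [y0]
    exact Real.one_le_exp (div_nonneg (by linarith) (by linarith))
  have hpow : y0 N ^ ((K1 + 1) * (K2 + 1)) ≤ N := y0_pow hw1 hwK
  rw [dist_eq_norm]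
  rcases le_or_gt (y0 N ^ K2) M with hc | hc
  · have hyN : y0 N ≤ N := by
      refine le_trans ?_ hpow
      calc y0 N = y0 N ^ 1 := (pow_one _).symm
        _ ≤ _ := pow_le_pow_right₀ hy01 (by nlinarith)
    have := h2 N q F T M (y0 N) hN2 hdat hM2 hc (good hκ2 hw1 hwκ2 le_rfl hyN)
    linarith
  · set y : ℝ := max (y0 N) M with hy
    have hyle : y ≤ y0 N ^ (K2 + 1) := by
      refine max_le ?_ ?_
      · calc y0 N = y0 N ^ 1 := (pow_one _).symm
          _ ≤ _ := pow_le_pow_right₀ hy01 (by omega)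
      · exact hc.le.trans (pow_le_pow_right₀ hy01 (by omega))
    have hy1 : 1 ≤ y := hy01.trans (le_max_left _ _)
    have hyK : y ^ K1 ≤ N := by
      refine le_trans ?_ hpow
      calc y ^ K1 ≤ y ^ (K1 + 1) := pow_le_pow_right₀ hy1 (by omega)
        _ ≤ (y0 N ^ (K2 + 1)) ^ (K1 + 1) := pow_le_pow_left₀ (by linarith) hyle _
        _ = y0 N ^ ((K1 + 1) * (K2 + 1)) := by rw [← pow_mul, mul_comm]
    have hyN : y ≤ N := by
      refine le_trans ?_ hpow
      calc y ≤ y0 N ^ (K2 + 1) := hyle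
        _ ≤ _ := pow_le_pow_right₀ hy01 (by nlinarith)
    have hMK : M ^ K1 ≤ N := by
      refine le_trans ?_ hyK
      exact pow_le_pow_left₀ (by linarith) (le_max_right _ _) _
    have := h1 N q F T M y hN1 hdat hM1 hMK (le_max_right _ _) hyK
      (good hκ1 hw1 hwκ1 (le_max_left _ _) hyN)
    linarith

end Pool.Agent.Helper2.EP.FIN
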