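import Pool.Agent.Helper20.EP.Spec3

set_option autoImplicit false

open Polynomial

namespace Pool.Agent.Helper2.EP.SCALE

open Pool.Agent.Helper20.EP

theorem diff_eq (f : ℝ[X]) (q : ℕ) (F : ℤ[X]) (hd : F.natDegree ≤ f.natDegree) (n : ℕ) :
    f.eval (n : ℝ) - ((F.eval (n : ℤ) : ℤ) : ℝ) / q =
      ∑ i ∈ Finset.range (f.natDegree + 1), (f.coeff i - (F.coeff i : ℝ) / q) * (n : ℝ) ^ i := by
  rw [eval_eq_sum_range' (Nat.lt_succ_self _), eval_eq_sum_range' (Nat.lt_succ_of_le hd)]
  push_cast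
  rw [Finset.sum_div, ← Finset.sum_sub_distrib]
  exact Finset.sum_congr rfl fun i _ => by ring

theorem diff_le {f : ℝ[X]} {N q : ℕ} {F : ℤ[X]} {T : ℝ} (h : App f N q F T) {n : ℕ}
    (hn : n ≤ N) : |f.eval (n : ℝ) - ((F.eval (n : ℤ) : ℤ) : ℝ) / q| ≤
      |f.coeff 0| + f.natDegree * T := by
  rw [diff_eq f q F h.deg n, Finset.sum_range_succ']
  refine (abs_add_le _ _).trans ?_
  rw [add_comm]
  refine add_le_add ?_ ?_
  · rw [h.c0]
    simp
  · refine (Finset.abs_sum_le_sum_abs _ _).trans ?_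
    have h1 : ∀ i ∈ Finset.range f.natDegree,
        |(f.coeff (i + 1) - (F.coeff (i + 1) : ℝ) / q) * (n : ℝ) ^ (i + 1)| ≤ T := by
      intro i _
      rw [abs_mul, abs_of_nonneg (show (0 : ℝ) ≤ (n : ℝ) ^ (i + 1) by positivity)]
      refine le_trans ?_ (h.app (i + 1) (by omega))
      exact mul_le_mul_of_nonneg_left
        (pow_le_pow_left₀ (Nat.cast_nonneg _) (by exact_mod_cast hn) _) (abs_nonneg _)
    refine (Finset.sum_le_sum h1).trans ?_
    simp

theorem main : S_SCALE := by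
  intro f hD
  set D := f.natDegree with hDdef
  have hne : f ≠ 0 := by
    intro h
    rw [hDdef, h] at hD
    simp at hD
  have hlc : f.coeff D ≠ 0 := by
    rw [hDdef]
    exact leadingCoeff_ne_zero.2 hne
  set A : ℝ := |f.coeff D| with hA
  have hA0 : 0 < A := abs_pos.2 hlc
  set S : ℝ := ∑ i ∈ Finset.range (D + 1), (|f.coeff i| + 1) with hS
  have hSi : ∀ i ≤ D, |f.coeff i| + 1 ≤ S := by
    intro i hi
    exact Finset.single_le_sum (f := fun i => |f.coeff i| + 1) (fun _ _ => by positivity)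
      (Finset.mem_range.2 (by omega))
  have hS1 : 1 ≤ S := le_trans (by linarith [abs_nonneg (f.coeff 0)]) (hSi 0 (by omega))
  set C0 : ℝ := S + 2 / A + (|f.coeff 0| + D + 1) with hC0
  have h2A : 0 < 2 / A := by positivity
  have hDn : (0 : ℝ) ≤ D := Nat.cast_nonneg _
  refine ⟨C0, ⌈4 / A ^ 2⌉₊ + 1, by
    have := abs_nonneg (f.coeff 0)
    linarith, ?_⟩
  intro N q F T M hN hdat hMN
  have hq1 : (1 : ℝ) ≤ q := by exact_mod_cast hdat.q_pos
  have hq0 : (0 : ℝ) < q := by linarith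
  have hT := hdat.T_nn
  have hM := hdat.hM
  have hN1 : (1 : ℝ) ≤ N := by
    have : 1 ≤ N := by omega
    exact_mod_cast this
  have hNA : 4 / A ^ 2 ≤ N := by
    have h1 : (4 / A ^ 2) ≤ (⌈4 / A ^ 2⌉₊ : ℝ) := Nat.le_ceil _
    have h2 : ((⌈4 / A ^ 2⌉₊ : ℕ) : ℝ) ≤ N := by
      have : ⌈4 / A ^ 2⌉₊ ≤ N := by omega
      exact_mod_cast this
    linarith
  have hTM : T ≤ M := by
    rw [hM]
    nlinarith
  have hM1 : 1 ≤ M := by
    rw [hM]
    nlinarith
  -- T / N is small
  have hTN : T ≤ A / 2 * N := by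
    have h1 : T ^ 2 ≤ N := le_trans (pow_le_pow_left₀ hT hTM 2) hMN
    have h2 : (N : ℝ) ≤ (A / 2 * N) ^ 2 := by
      have h3 : 4 ≤ N * A ^ 2 := by
        rw [div_le_iff₀ (by positivity)] at hNA
        exact hNA
      nlinarith
    exact le_of_sq_le_sq (h1.trans h2) (by positivity)
  have hTN1 : T ≤ N := by
    have h1 : M ≤ N := by nlinarith
    exact hTM.trans h1
  have hNpos : (0 : ℝ) < N := by linarith
  have happ : ∀ j, 1 ≤ j → |f.coeff j - (F.coeff j : ℝ) / q| ≤ T / N := by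
    intro j hj
    rw [le_div_iff₀ hNpos]
    refine le_trans ?_ (hdat.app j hj)
    refine mul_le_mul_of_nonneg_left ?_ (abs_nonneg _)
    calc (N : ℝ) = (N : ℝ) ^ 1 := (pow_one _).symm
      _ ≤ (N : ℝ) ^ j := pow_le_pow_right₀ hN1 hj
  -- the leading coefficient
  have hlow : q * A / 2 ≤ |(F.coeff D : ℝ)| := by
    have h1 := happ D hD
    have h2 : T / N ≤ A / 2 := by
      rw [div_le_iff₀ hNpos]
      exact hTN
    have h3 : A - |(F.coeff D : ℝ) / q| ≤ |f.coeff D - (F.coeff D : ℝ) / q| :=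
      abs_sub_abs_le_abs_sub _ _
    have h4 : A / 2 ≤ |(F.coeff D : ℝ) / q| := by linarith
    rw [abs_div, abs_of_pos hq0, le_div_iff₀ hq0] at h4
    linarith
  have hFD : F.coeff D ≠ 0 := by
    intro h
    rw [h] at hlow
    simp only [Int.cast_zero, abs_zero] at hlow
    have : 0 < q * A / 2 := by positivity
    linarith
  have hdeg : F.natDegree = D := le_antisymm hdat.deg (le_natDegree_of_ne_zero hFD)
  have hup : ∀ j ≤ D, |(F.coeff j : ℝ)| ≤ q * (|f.coeff j| + 1) := by
    intro j hj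
    rcases Nat.eq_zero_or_pos j with rfl | hj1
    · rw [hdat.c0]
      simp only [Int.cast_zero, abs_zero]
      positivity
    · have h1 := happ j hj1
      have h2 : T / N ≤ 1 := by
        rw [div_le_one hNpos]
        exact hTN1
      have h3 : |(F.coeff j : ℝ) / q| - |f.coeff j| ≤ |(F.coeff j : ℝ) / q - f.coeff j| :=
        abs_sub_abs_le_abs_sub _ _
      rw [abs_sub_comm] at h3
      have h4 : |(F.coeff j : ℝ) / q| ≤ |f.coeff j| + 1 := by linarith
      rw [abs_div, abs_of_pos hq0, div_le_iff₀ hq0] at h4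
      linarith
  set R : ℝ := (1 + T) ^ (1 / (D : ℝ)) with hR
  have hD0 : (D : ℝ) ≠ 0 := by
    have : D ≠ 0 := by omega
    exact_mod_cast this
  have hR1 : 1 ≤ R := Real.one_le_rpow (by linarith) (by positivity)
  have hRD : R ^ D = 1 + T := by
    rw [hR, ← Real.rpow_natCast, ← Real.rpow_mul (by linarith), one_div_mul_cancel hD0, Real.rpow_one]
  have hM0 : 0 < M := by linarith
  refine ⟨⟨R, hdeg, hR1, ?_, ?_⟩, ?_⟩
  · intro j
    rcases le_or_gt j D with hj | hj
    · have h1 : R ^ j ≤ 1 + T := by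
        rw [← hRD]
        exact pow_le_pow_right₀ hR1 hj
      calc |(F.coeff j : ℝ)| * R ^ j ≤ (q * (|f.coeff j| + 1)) * (1 + T) :=
            mul_le_mul (hup j hj) h1 (by positivity) (by positivity)
        _ = (|f.coeff j| + 1) * M := by rw [hM]; ring
        _ ≤ C0 * M := by
            refine mul_le_mul_of_nonneg_right ?_ hM0.le
            have := hSi j hj
            have := abs_nonneg (f.coeff 0)
            linarith
    · have h1 : F.coeff j = 0 := coeff_eq_zero_of_natDegree_lt (by omega)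
      have h2 : 0 ≤ C0 := by
        have := abs_nonneg (f.coeff 0)
        linarith
      rw [h1]
      simp only [Int.cast_zero, abs_zero, zero_mul]
      positivity
  · rw [mul_assoc, hRD]
    have h1 : (2 / A) * (q * A / 2 * (1 + T)) = M := by
      rw [hM]
      field_simp
    calc M = (2 / A) * (q * A / 2 * (1 + T)) := h1.symm
      _ ≤ (2 / A) * (|(F.coeff D : ℝ)| * (1 + T)) := by
          refine mul_le_mul_of_nonneg_left ?_ h2A.le
          exact mul_le_mul_of_nonneg_right hlow (by linarith)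
      _ ≤ C0 * (|(F.coeff D : ℝ)| * (1 + T)) := by
          refine mul_le_mul_of_nonneg_right ?_ (by positivity)
          have := abs_nonneg (f.coeff 0)
          linarith
  · intro n hn
    have hnN := (Finset.mem_Icc.1 hn).2
    have h1 := diff_le hdat.toApp hnN
    set fr := Int.fract (f.eval (n : ℝ)) with hfr
    have hfl : ((⌊f.eval (n : ℝ)⌋ : ℤ) : ℝ) = f.eval (n : ℝ) - fr := by
      rw [hfr, Int.self_sub_fract]
    have hs : ((sn f q F n : ℤ) : ℝ) = q * fr -
        q * (f.eval (n : ℝ) - ((F.eval (n : ℤ) : ℤ) : ℝ) / q) := by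
      rw [sn]
      push_cast
      rw [hfl]
      field_simp
      ring
    have hfr0 := Int.fract_nonneg (f.eval (n : ℝ))
    have hfr1 := (Int.fract_lt_one (f.eval (n : ℝ))).le
    rw [hs, ← mul_sub, abs_mul, abs_of_pos hq0]
    have h2 : |fr - (f.eval (n : ℝ) - ((F.eval (n : ℤ) : ℤ) : ℝ) / q)| ≤
        1 + (|f.coeff 0| + f.natDegree * T) := by
      refine (abs_sub _ _).trans (add_le_add ?_ h1)
      rw [abs_of_nonneg hfr0]
      exact hfr1
    calc (q : ℝ) * |fr - (f.eval (n : ℝ) - ((F.eval (n : ℤ) : ℤ) : ℝ) / q)|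
        ≤ q * (1 + (|f.coeff 0| + f.natDegree * T)) := mul_le_mul_of_nonneg_left h2 hq0.le
      _ ≤ q * ((|f.coeff 0| + D + 1) * (1 + T)) := by
          refine mul_le_mul_of_nonneg_left ?_ hq0.le
          have := abs_nonneg (f.coeff 0)
          rw [← hDdef]
          nlinarith
      _ = (|f.coeff 0| + D + 1) * M := by rw [hM]; ring
      _ ≤ C0 * M := by
          refine mul_le_mul_of_nonneg_right ?_ hM0.le
          linarith

end Pool.Agent.Helper2.EP.SCALE
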