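import Pool.Agent.Helper20.EP.Spec3

set_option autoImplicit false

open Polynomial Filter

namespace Pool.Agent.Helper2.EP.ZERO

open Pool.Agent.Helper20.EP

theorem main : S_ZERO := by
  classical
  intro f hD
  have hdeg : 0 < f.degree := natDegree_pos_iff_degree_pos.1 (by omega)
  have h1 : Tendsto (fun n : ℕ => ‖f.eval (n : ℝ)‖) atTop atTop := by
    refine f.tendsto_norm_atTop hdeg ?_
    have h2 : (fun n : ℕ => ‖(n : ℝ)‖) = fun n : ℕ => (n : ℝ) := by
      funext n
      simp
    rw [h2]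
    exact tendsto_natCast_atTop_atTop
  obtain ⟨n0, hn0⟩ := (h1.eventually_ge_atTop 1).exists_forall_of_atTop
  refine ⟨n0, fun N => ?_⟩
  rw [cnt]
  have h3 : ((Finset.Icc 1 N).filter fun n : ℕ => ⌊f.eval (n : ℝ)⌋ = 0) ⊆ Finset.range n0 := by
    intro n hn
    rw [Finset.mem_filter] at hn
    rw [Finset.mem_range]
    by_contra hc
    have h4 := hn0 n (by omega)
    have h5 := Int.floor_eq_zero_iff.1 hn.2
    rw [Real.norm_eq_abs, abs_of_nonneg h5.1] at h4
    linarith [h5.2]
  have h6 := Finset.card_le_card h3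
  rw [Finset.card_range] at h6
  exact_mod_cast h6

end Pool.Agent.Helper2.EP.ZERO
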